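import Pool.Agent.Helper37.LN2.Defs
import Pool.Agent.Helper5.HG.G3
import Pool.Agent.Helper99.HG.HT
import Pool.Agent.Helper21.HG.Mert

/-!
# Project LN2, block UP': sets of primes with two weights
-/

set_option autoImplicit false

namespace Pool.Agent.LN2

open Pool.Agent.Helper99.HG
open Pool.Agent.HG (Pr nm sys5)

/-- the elementary inequality with a weight function -/
theorem hallf29 {k : ℕ} {G : Type} {D : CD k G} (hS : Sys D.P D.nm) {w : ℝ} (hw : 0 ≤ w) :
    ∃ C : ℝ, 0 < C ∧ ∀ f : D.P → ℝ, (∀ p, 0 ≤ f p) → (∀ p, f p ≤ w) → ∀ X : ℕ, 2 ≤ X →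
    ∀ S : Finset (Finset D.P), (∀ c ∈ S, Nm D c ≤ X) →
    (∑ c ∈ S, ∏ p ∈ c, f p) * Real.log X ≤
      C * X * Real.exp (∑ p ∈ pr D X, f p / D.nm p) := by
  classical
  obtain ⟨C₁, hC₁⟩ := hS.cheb
  have hC₁0 : 0 ≤ C₁ := by
    have := hC₁ 1 ∅ (by simp)
    simpa using this
  refine ⟨w * C₁ + 1, by positivity, ?_⟩
  intro f hf0 hfw X hX S hSX
  have hXp : (0 : ℝ) < X := by exact_mod_cast (by omega : 0 < X)
  have hlX : 0 < Real.log X := Real.log_pos (by exact_mod_cast (by omega : 1 < X))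
  have hg0 : ∀ c : Finset D.P, 0 ≤ ∏ p ∈ c, f p := fun c => Finset.prod_nonneg fun p _ => hf0 p
  -- all admissible sets
  set A := (pr D X).powerset.filter (fun c => Nm D c ≤ X) with hA
  have hSA : S ⊆ A := by
    intro c hc
    have h1 := hSX c hc
    refine Finset.mem_filter.mpr ⟨Finset.mem_powerset.mpr fun p hp => ?_, h1⟩
    rw [mem_pr hS]
    exact (nm_le_Nm hS hp).trans h1
  refine (mul_le_mul_of_nonneg_right
    (Finset.sum_le_sum_of_subset_of_nonneg hSA fun c _ _ => hg0 _) hlX.le).trans ?_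
  have hpos : ∀ c : Finset D.P, (0 : ℝ) < Nm D c := fun c => by exact_mod_cast Nm_pos hS c
  -- the sum of the logarithms of the norms
  have hlog : ∀ c : Finset D.P, Real.log (Nm D c) = ∑ p ∈ c, Real.log (D.nm p) := by
    intro c
    unfold Nm
    rw [Nat.cast_prod, Real.log_prod]
    intro p _
    have := hS.two p
    exact_mod_cast (by omega : D.nm p ≠ 0)
  have hl0 : ∀ p, 0 ≤ Real.log (D.nm p) := fun p => Real.log_nonneg (by
    have := hS.two p
    exact_mod_cast (by omega : 1 ≤ D.nm p))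
  have h1 : ∑ c ∈ A, (∏ p ∈ c, f p) * Real.log (Nm D c) ≤
      ∑ m ∈ A, ∑ p ∈ pr D (X / Nm D m), (∏ q ∈ m, f q) * w * Real.log (D.nm p) := by
    simp only [hlog, Finset.mul_sum]
    rw [Finset.sum_sigma', Finset.sum_sigma']
    have hinj : Set.InjOn (fun x : (_ : Finset D.P) × D.P =>
        (⟨x.1.erase x.2, x.2⟩ : (_ : Finset D.P) × D.P))
        (A.sigma fun c => c : Finset ((_ : Finset D.P) × D.P)) := by
      rintro ⟨c, p⟩ h ⟨c', p'⟩ h' e
      have e1 : c.erase p = c'.erase p' := congrArg Sigma.fst e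
      have e2 : p = p' := by
        have := congrArg Sigma.snd e
        simpa using this
      subst e2
      have g1 := (Finset.mem_sigma.mp (Finset.mem_coe.mp h)).2
      have g2 := (Finset.mem_sigma.mp (Finset.mem_coe.mp h')).2
      simp only at g1 g2
      have : c = c' := by rw [← Finset.insert_erase g1, ← Finset.insert_erase g2, e1]
      rw [this]
    calc ∑ x ∈ A.sigma fun c => c, (∏ q ∈ x.1, f q) * Real.log (D.nm x.2) ≤
        ∑ x ∈ A.sigma fun c => c, (∏ q ∈ x.1.erase x.2, f q) * w * Real.log (D.nm x.2) := by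
          refine Finset.sum_le_sum fun x hx => ?_
          refine mul_le_mul_of_nonneg_right ?_ (hl0 _)
          rw [← Finset.prod_erase_mul x.1 f (Finset.mem_sigma.mp hx).2]
          exact mul_le_mul_of_nonneg_left (hfw _) (hg0 _)
      _ = ∑ y ∈ (A.sigma fun c => c).image (fun x : (_ : Finset D.P) × D.P =>
          (⟨x.1.erase x.2, x.2⟩ : (_ : Finset D.P) × D.P)),
          (∏ q ∈ y.1, f q) * w * Real.log (D.nm y.2) := by
          rw [Finset.sum_image hinj]
      _ ≤ _ := by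
        refine Finset.sum_le_sum_of_subset_of_nonneg ?_ fun y _ _ =>
          mul_nonneg (mul_nonneg (hg0 _) hw) (hl0 _)
        intro y hy
        obtain ⟨⟨c, p⟩, hx, rfl⟩ := Finset.mem_image.mp hy
        obtain ⟨g1, g2⟩ := Finset.mem_sigma.mp hx
        simp only at g1 g2
        obtain ⟨g3, g4⟩ := Finset.mem_filter.mp g1
        have e : D.nm p * Nm D (c.erase p) = Nm D c := Finset.mul_prod_erase c D.nm g2
        refine Finset.mem_sigma.mpr ⟨Finset.mem_filter.mpr ⟨?_, ?_⟩, ?_⟩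
        · exact Finset.mem_powerset.mpr ((Finset.erase_subset _ _).trans (Finset.mem_powerset.mp g3))
        · refine le_trans (Nat.le_of_dvd (Nm_pos hS c) ⟨D.nm p, ?_⟩) g4
          simp only
          rw [← e]
          ring
        · simp only
          rw [mem_pr hS, Nat.le_div_iff_mul_le (Nm_pos hS _), e]
          exact g4
  have h2 : ∑ c ∈ A, (∏ p ∈ c, f p) * Real.log (Nm D c) ≤
      w * C₁ * X * ∑ m ∈ A, (∏ p ∈ m, f p) / Nm D m := by
    refine h1.trans ?_
    rw [Finset.mul_sum]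
    refine Finset.sum_le_sum fun m _ => ?_
    rw [← Finset.mul_sum]
    have g0 := hC₁ (X / Nm D m) (pr D (X / Nm D m)) fun p hp => (mem_pr hS).mp hp
    have g : ((X / Nm D m : ℕ) : ℝ) ≤ X / Nm D m := Nat.cast_div_le
    calc (∏ p ∈ m, f p) * w * ∑ p ∈ pr D (X / Nm D m), Real.log (D.nm p) ≤
          (∏ p ∈ m, f p) * w * (C₁ * (X / Nm D m)) :=
          mul_le_mul_of_nonneg_left (g0.trans (mul_le_mul_of_nonneg_left g hC₁0))
            (mul_nonneg (hg0 _) hw)
      _ = _ := by ring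
  have h3 : ∑ c ∈ A, (∏ p ∈ c, f p) * (Real.log X - Real.log (Nm D c)) ≤
      X * ∑ m ∈ A, (∏ p ∈ m, f p) / Nm D m := by
    rw [Finset.mul_sum]
    refine Finset.sum_le_sum fun c _ => ?_
    rw [← Real.log_div hXp.ne' (hpos c).ne']
    have := Real.log_le_sub_one_of_pos (div_pos hXp (hpos c))
    calc (∏ p ∈ c, f p) * Real.log (X / Nm D c) ≤ (∏ p ∈ c, f p) * (X / Nm D c) :=
          mul_le_mul_of_nonneg_left (by linarith) (hg0 _)
      _ = _ := by ring
  have h4 : (∑ c ∈ A, ∏ p ∈ c, f p) * Real.log X ≤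
      (w * C₁ + 1) * X * ∑ m ∈ A, (∏ p ∈ m, f p) / Nm D m := by
    simp only [mul_sub, Finset.sum_sub_distrib, ← Finset.sum_mul] at h3
    linarith
  -- the Euler product
  have h5 : ∑ m ∈ A, (∏ p ∈ m, f p) / Nm D m ≤ Real.exp (∑ p ∈ pr D X, f p / D.nm p) := by
    have e1 : ∀ m : Finset D.P, (∏ p ∈ m, f p) / Nm D m = ∏ p ∈ m, f p / D.nm p := by
      intro m
      unfold Nm
      rw [Finset.prod_div_distrib, Nat.cast_prod]
    simp only [e1]
    calc ∑ m ∈ A, ∏ p ∈ m, f p / D.nm p ≤ ∑ m ∈ (pr D X).powerset, ∏ p ∈ m, f p / D.nm p := by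
          refine Finset.sum_le_sum_of_subset_of_nonneg (Finset.filter_subset _ _) fun s _ _ =>
            Finset.prod_nonneg fun p _ => div_nonneg (hf0 p) (Nat.cast_nonneg _)
      _ = ∏ p ∈ pr D X, (1 + f p / D.nm p) := by rw [Finset.prod_one_add]
      _ ≤ ∏ p ∈ pr D X, Real.exp (f p / D.nm p) := by
          refine Finset.prod_le_prod (fun p _ => ?_) fun p _ => ?_
          · have := div_nonneg (hf0 p) (Nat.cast_nonneg (α := ℝ) (D.nm p))
            linarith
          · rw [add_comm]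
            exact Real.add_one_le_exp _
      _ = _ := by rw [Real.exp_sum]
  exact h4.trans (mul_le_mul_of_nonneg_left h5 (by positivity))

/-- the sum of the reciprocals of the norms -/
theorem recip29 {k : ℕ} {G : Type} {D : CD k G} (hS : Sys D.P D.nm) :
    ∃ C₃ : ℝ, ∀ X : ℕ, 2 ≤ X → ∑ p ∈ pr D X, (1 : ℝ) / D.nm p ≤ Real.log (Real.log X) + C₃ := by
  classical
  obtain ⟨C₂, hC₂⟩ := hS.mert
  refine ⟨(pr D 2).card + (-Real.log (Real.log (2 : ℕ)) + C₂), fun X hX => ?_⟩
  have h1 := hC₂ 2 X le_rfl hX ((pr D X).filter fun p => 2 < D.nm p) (by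
    intro p hp
    exact ⟨(Finset.mem_filter.mp hp).2, (mem_pr hS).mp (Finset.mem_filter.mp hp).1⟩)
  have h2 : ∑ p ∈ (pr D X).filter (fun p => ¬ 2 < D.nm p), (1 : ℝ) / D.nm p ≤ (pr D 2).card := by
    have h3 : ∑ p ∈ (pr D X).filter (fun p => ¬ 2 < D.nm p), (1 : ℝ) / D.nm p ≤
        ∑ p ∈ (pr D X).filter (fun p => ¬ 2 < D.nm p), (1 : ℝ) := by
      refine Finset.sum_le_sum fun p _ => ?_
      have : (2 : ℝ) ≤ D.nm p := by exact_mod_cast hS.two p
      rw [div_le_one (by linarith)]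
      linarith
    rw [Finset.sum_const, nsmul_eq_mul, mul_one] at h3
    refine h3.trans ?_
    have h4 : (pr D X).filter (fun p => ¬ 2 < D.nm p) ⊆ pr D 2 := by
      intro p hp
      rw [mem_pr hS]
      have := (Finset.mem_filter.mp hp).2
      omega
    exact_mod_cast Finset.card_le_card h4
  rw [← Finset.sum_filter_add_sum_filter_not (pr D X) (fun p => 2 < D.nm p)]
  linarith

/-- **BLOCK UP'.** -/
theorem up : StmtUP := by
  classical
  intro k _ _ w w' hw hww Q δ C B hB hC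
  let DD : CD 1 ℤˣ :=
    { P := Pr k, nm := nm, Ex := ∅, O := Unit, ι := Unit, V := fun _ => ∅, cmp := fun _ => 0,
      I := fun _ _ _ => ∅, χ := fun _ _ _ _ => 1, g := fun _ _ _ => 1 }
  have hS : Sys DD.P DD.nm := sys5 Pool.Agent.Helper21.HG.mert k
  have hw0 : (0 : ℝ) ≤ w := Nat.cast_nonneg w
  have hw0' : (0 : ℝ) ≤ w' := Nat.cast_nonneg w'
  have hww' : (w' : ℝ) ≤ w := by exact_mod_cast hww
  obtain ⟨C₁, hC₁, hh⟩ := hallf29 hS hw0
  obtain ⟨C₃, hC₃⟩ := recip29 hS
  refine ⟨C₁ * Real.exp (w * C₃ + (w - w') * C), by positivity, fun x hx S hSx => ?_⟩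
  have hx0 : (0 : ℝ) ≤ x := Nat.cast_nonneg x
  have hl0 : 0 < Real.log x := Real.log_pos (by exact_mod_cast (by omega : 1 < x))
  have h1 := hh (fun v => if v ∈ Q then (w' : ℝ) else (w : ℝ))
    (fun v => by
      split_ifs
      · exact hw0'
      · exact hw0)
    (fun v => by
      split_ifs
      · exact hww'
      · exact le_rfl) x (by omega) S hSx
  have h2 := hC x (by omega)
  have hpr : pr DD x = B x := by
    ext v
    rw [mem_pr hS, hB]
  have h3 : ∑ p ∈ pr DD x, (if p ∈ Q then (w' : ℝ) else (w : ℝ)) / DD.nm p ≤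
      (w : ℝ) * (Real.log (Real.log x) + C₃) -
        ((w : ℝ) - w') * (δ * Real.log (Real.log x) - C) := by
    have h4 := hC₃ x (by omega)
    rw [hpr] at h4 ⊢
    have h5 : ∑ p ∈ B x, (if p ∈ Q then (w' : ℝ) else (w : ℝ)) / DD.nm p =
        w * ∑ p ∈ B x, (1 : ℝ) / DD.nm p -
          ((w : ℝ) - w') * ∑ v ∈ (B x).filter (· ∈ Q), (1 : ℝ) / nm v := by
      rw [Finset.sum_filter, Finset.mul_sum, Finset.mul_sum, ← Finset.sum_sub_distrib]
      refine Finset.sum_congr rfl fun p _ => ?_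
      change (if p ∈ Q then (w' : ℝ) else (w : ℝ)) / nm p = w * (1 / nm p) - _
      split_ifs <;> ring
    rw [h5]
    have h6 := mul_le_mul_of_nonneg_left h4 hw0
    have h7 := mul_le_mul_of_nonneg_left h2 (sub_nonneg.2 hww')
    linarith
  have h4 : (∑ s ∈ S, ∏ v ∈ s, (if v ∈ Q then (w' : ℝ) else (w : ℝ))) * Real.log x ≤
      (C₁ * Real.exp (w * C₃ + (w - w') * C) * x *
        Real.log x ^ ((w : ℝ) - ((w : ℝ) - w') * δ - 1)) * Real.log x := by
    refine h1.trans ?_
    calc C₁ * x * Real.exp (∑ p ∈ pr DD x, (if p ∈ Q then (w' : ℝ) else (w : ℝ)) / DD.nm p) ≤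
          C₁ * x * Real.exp ((w : ℝ) * (Real.log (Real.log x) + C₃) -
            ((w : ℝ) - w') * (δ * Real.log (Real.log x) - C)) :=
          mul_le_mul_of_nonneg_left (Real.exp_le_exp.2 h3) (by positivity)
      _ = C₁ * x * (Real.exp (w * C₃ + (w - w') * C) *
          Real.exp (Real.log (Real.log x) * ((w : ℝ) - ((w : ℝ) - w') * δ - 1)) *
            Real.exp (Real.log (Real.log x))) := by
          rw [← Real.exp_add, ← Real.exp_add]
          ring_nf
      _ = _ := by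
          rw [Real.exp_log hl0, Real.rpow_def_of_pos hl0]
          ring
  exact le_of_mul_le_mul_right h4 hl0

end Pool.Agent.LN2
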